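import Pool.Agent.Lib.MP_72fca1_lc.Main

set_option autoImplicit false

namespace Pool.Agent.Results.MP_72fca1_lc.LongCC

open Pool.Agent.Lib.helper81 Pool.Agent.Lib.MP_fcebdf_lc Pool.Agent.Lib.MP_d4b40b_lc
open Pool.Agent.Lib.MP_72fca1_lc Cardinal

/-- From GCH and a supercompactness measure concentrating on sets whose traces on an increasing
sequence of inaccessible sets have `κ`-supercompact size: a well-founded model of ZFC, GCH and
the long Chang's Conjecture. -/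
theorem result (gch : ∀ c : Cardinal.{0}, ℵ₀ ≤ c → 2 ^ c = Order.succ c) (κ : Cardinal.{0})
    (hκ : ℵ₀ < κ) (T : Type) (W : Ultrafilter (Set T)) (hW : SC κ W) (A : ℕ → Set T)
    (h0 : κ < #(A 0)) (h1 : StrictMono fun n => #(A n)) (h2 : ∀ n, IsInaccessible #(A n))
    (h3 : ⨆ n, #(A n) < #T)
    (h4 : ∀ n, {x : Set T | ∃ U : Ultrafilter (Set κ.out), SC #(x ∩ A n : Set T) U} ∈ W) :
    ∃ (M : Type) (E : M → M → Prop), IsZF E ∧ Choice E ∧ WellFounded E ∧ GCH E ∧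
      ∃ (a b : ℕ → M) (k k2 : M), Omega E (a 0) ∧ (∀ n, Next E (a n) (a (n + 1))) ∧
        (∀ x, E x k ↔ ∃ n, E x (a n)) ∧ Next E k (b 0) ∧ (∀ n, Next E (b n) (b (n + 1))) ∧
        (∀ x, E x k2 ↔ ∃ n, E x (b n)) ∧ Chang E k2 b fun n => a (n + 1) :=
  main gch κ hκ T W hW A h0 h1 h2 h3 h4

end Pool.Agent.Results.MP_72fca1_lc.LongCC
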